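import Pool.Agent.Q148.PS.All

set_option autoImplicit false

/-!
# Almost prime odd congruent numbers in almost all short intervals, with a power saving

Let `θ > 11/21`.  There are `R` and `δ > 0` such that for all `M` and `K` the interval
`[x, x + x ^ θ]` contains, for all but `O (X ^ (1 - δ))` of the `x ≤ X` and for every odd squarefree
`k ≤ K`, an odd squarefree congruent number `k m` with `m ≡ 1` modulo `M`, where `m` has at most `R`
prime factors, all at least `x ^ (1 / R)`.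

Proof.  With `v = k W ^ 2 t ^ 2` and `u ≡ 1` modulo `W` the number `k u (u ^ 2 - v ^ 2)` is
congruent.  For `t ∈ (T, 2 T]`, `T` about `x ^ (1/7)`, let `g_t (ξ)` be the approximate inverse
function of `u ↦ u ^ 3 - v ^ 2 u`, `ξ = (x / k) ^ (1/3)`.  The numbers `g_t (ξ)` near integers
`u ≡ 1` modulo `W` are counted with a power of the Fejér kernel, and sifted: the condition
`d ∣ u (u ^ 2 - v ^ 2)` is detected by Fejér kernels in the residue classes modulo `d`, which turns
the sifted count into exponential sums in `g_t (ξ)` with frequencies `h / (d W)`; its variance in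
`ξ` is estimated by the first and second derivative tests.  The lower bound sieve weights are those
of the fundamental lemma.  The values divisible by the square of a large prime are removed by
counting.
-/

namespace Pool.Agent.Results.MP_05dcdc_nt.AlmostPrimesAlmostAllIntervals

/-- `n` is the area of a right triangle with rational sides -/
def IsCongruent (n : ℕ) : Prop :=
  ∃ a b c : ℚ, 0 < a ∧ 0 < b ∧ 0 < c ∧ a ^ 2 + b ^ 2 = c ^ 2 ∧ (n : ℚ) = a * b / 2

/-- **Almost prime odd congruent numbers in almost all short intervals.**  For every real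
`θ > 11/21` there are `R` and `δ > 0` such that for all integers `M ≥ 1` and `K ≥ 0` there is `C`
such that for all real `X ≥ 1`, for all but at most `C X ^ (1 - δ)` natural numbers `x ≤ X` the
following holds: for every odd squarefree `k ≤ K` there is `m ≡ 1` modulo `M` such that `k m` is an
odd squarefree congruent number in `[x, x + x ^ θ]`, `m` has at most `R` prime factors (with
multiplicity) and `p ^ R ≥ x` for every prime factor `p` of `m`. -/
theorem result (θ : ℝ) (hθ : 11 / 21 < θ) : ∃ R : ℕ, ∃ δ : ℝ, 0 < δ ∧ ∀ M K : ℕ, 1 ≤ M →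
    ∃ C : ℝ, ∀ X : ℝ, 1 ≤ X →
      ({x : ℕ | (x : ℝ) ≤ X ∧ ¬ ∀ k : ℕ, k ≤ K → Squarefree k → Odd k →
        ∃ m : ℕ, m ≡ 1 [MOD M] ∧ x ≤ k * m ∧ ((k * m : ℕ) : ℝ) ≤ x + (x : ℝ) ^ θ ∧
          Squarefree (k * m) ∧ Odd (k * m) ∧ IsCongruent (k * m) ∧
          m.primeFactorsList.length ≤ R ∧
          ∀ p : ℕ, p.Prime → p ∣ m → x ≤ p ^ R}.ncard : ℝ) ≤ C * X ^ (1 - δ) := by
  obtain ⟨R, δ, hδ, h⟩ := Pool.Agent.Q148.PS.main2 θ hθ
  refine ⟨R, δ, hδ, ?_⟩
  intro M K hM
  obtain ⟨C, hC⟩ := h (2 * M) K (by omega)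
  refine ⟨C, ?_⟩
  intro X hX
  refine le_trans ?_ (hC X hX)
  have hfin : {x : ℕ | (x : ℝ) ≤ X ∧ ¬ ∀ B ≤ K, Squarefree B →
      Pool.Agent.Q148.PS.PK2 B (2 * M) R θ x}.Finite := by
    apply (Set.finite_Iic ⌊X⌋₊).subset
    intro x hx
    exact Nat.le_floor hx.1
  have hsub : {x : ℕ | (x : ℝ) ≤ X ∧ ¬ ∀ k : ℕ, k ≤ K → Squarefree k → Odd k →
        ∃ m : ℕ, m ≡ 1 [MOD M] ∧ x ≤ k * m ∧ ((k * m : ℕ) : ℝ) ≤ x + (x : ℝ) ^ θ ∧
          Squarefree (k * m) ∧ Odd (k * m) ∧ IsCongruent (k * m) ∧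
          m.primeFactorsList.length ≤ R ∧
          ∀ p : ℕ, p.Prime → p ∣ m → x ≤ p ^ R} ⊆
      {x : ℕ | (x : ℝ) ≤ X ∧ ¬ ∀ B ≤ K, Squarefree B →
        Pool.Agent.Q148.PS.PK2 B (2 * M) R θ x} := by
    intro x hx
    refine ⟨hx.1, ?_⟩
    intro h1
    apply hx.2
    intro k hkK hk hkp
    obtain ⟨m, h2, h3, h4, h5, h6, h7, h8⟩ := h1 k hkK hk
    have h9 : m ≡ 1 [MOD 2] := h2.of_dvd (Dvd.intro M rfl)
    have h10 : Odd m := by
      rw [Nat.odd_iff]
      exact h9
    exact ⟨m, h2.of_dvd (Dvd.intro_left 2 rfl), h7, h8, h3, hkp.mul h10, h4, h5, h6⟩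
  exact_mod_cast Set.ncard_le_ncard hsub hfin

end Pool.Agent.Results.MP_05dcdc_nt.AlmostPrimesAlmostAllIntervals
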